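import Pool.Agent.Helper64.FL.StH

/-! Full list for MP_866009_co: module D0F. -/

set_option autoImplicit false

namespace Pool.Agent.Helper64.FL

open Pool.Agent.Helper64.CT Pool.Agent.Helper64.DT
open Pool.Agent.Helper64.HG (Ovl Model Circ IC HellyCircle ChordModel)

/-- conflicting components have a common attachment -/
theorem d0f_common {V : Type} {G : SimpleGraph V} {x a b : V} (h : Conf G x a b) :
    ∃ n, n ∈ Att G x a ∧ n ∈ Att G x b := by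
  obtain ⟨_, ⟨u, hu, ⟨n, hn, hun⟩, _⟩, _⟩ := h
  exact ⟨n, ⟨hn.1, u, hu, hun.symm⟩, hn⟩

theorem d0f_step {V : Type} {G : SimpleGraph V} {x a b u : V} (h : Conf G x a b)
    (hb : ¬ Mixed G u (Att G x b)) :
    ((∀ n ∈ Att G x a, G.Adj u n) → ∀ n ∈ Att G x b, G.Adj u n) ∧
    ((∀ n ∈ Att G x a, ¬ G.Adj u n) → ∀ n ∈ Att G x b, ¬ G.Adj u n) := by
  obtain ⟨n, hna, hnb⟩ := d0f_common h
  refine ⟨?_, ?_⟩
  · intro h1 m hm
    by_contra hcon
    exact hb ⟨⟨n, hnb, h1 n hna⟩, m, hm, hcon⟩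
  · intro h1 m hm hcon
    exact hb ⟨⟨m, hm, hcon⟩, n, hnb, h1 n hna⟩

theorem st_D0F (_h1 : ST_SHF) : ST_D0F := by
  intro V G x k y hM hD
  have k5 := hM.k5
  -- every vertex of the component of `y 0` is complete or anticomplete to `RR`
  have key : ∀ u, Comp G x (y 0) u → u ∈ UU G x k y ∨ ∀ n ∈ RR G x k y, ¬ G.Adj u n := by
    intro u hu
    have prop : ∀ j, 2 ≤ j → j + 2 ≤ k →
        ((∀ n ∈ Att G x (y 2), G.Adj u n) → ∀ n ∈ Att G x (y j), G.Adj u n) ∧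
        ((∀ n ∈ Att G x (y 2), ¬ G.Adj u n) → ∀ n ∈ Att G x (y j), ¬ G.Adj u n) := by
      intro j hj
      induction j, hj using Nat.le_induction with
      | base =>
        intro _
        exact ⟨fun h => h, fun h => h⟩
      | succ j hj ih =>
        intro hjk
        have ih' := ih (by omega)
        have st := d0f_step (hM.cf j) ((hD (j + 1) (by omega) hjk).2 u hu)
        exact ⟨fun h => st.1 (ih'.1 h), fun h => st.2 (ih'.2 h)⟩
    have h2 := (hD 2 le_rfl (by omega)).2 u hu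
    by_cases hc : ∀ n ∈ Att G x (y 2), G.Adj u n
    · left
      refine ⟨hu, ?_⟩
      rintro n ⟨j, hj, hjk, hn⟩
      exact (prop j hj hjk).1 hc n hn
    · right
      push Not at hc
      obtain ⟨m, hm, hum⟩ := hc
      have hanti : ∀ n ∈ Att G x (y 2), ¬ G.Adj u n := by
        intro n hn hun
        exact h2 ⟨⟨n, hn, hun⟩, m, hm, hum⟩
      rintro n ⟨j, hj, hjk, hn⟩
      exact (prop j hj hjk).2 hanti n hn
  have hU : ∃ u, u ∈ UU G x k y := by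
    obtain ⟨⟨n, hn2, hn0⟩, _⟩ := hD 2 le_rfl (by omega)
    obtain ⟨_, u, hu, hnu⟩ := hn0
    rcases key u hu with h | h
    · exact ⟨u, h⟩
    · exact absurd hnu.symm (h n ⟨2, le_rfl, by omega, hn2⟩)
  refine ⟨hU, key, ?_, ?_, ?_, ?_⟩
  · rintro n ⟨j, hj, hjk, hn⟩
    obtain ⟨u, hu, hun⟩ := hU
    exact ⟨hn.1, u, hu, (hun n ⟨j, hj, hjk, hn⟩).symm⟩
  · obtain ⟨_, ⟨w, _, ⟨n, hn, hwn⟩, m, hm, hwm⟩, _⟩ := hM.cf 1
    exact ⟨n, ⟨2, le_rfl, by omega, hn⟩, m, ⟨2, le_rfl, by omega, hm⟩,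
      fun h => hwm (h ▸ hwn)⟩
  · obtain ⟨n, h1, h2⟩ := d0f_common (hM.cf 1)
    exact ⟨n, ⟨2, le_rfl, by omega, h2⟩, h1⟩
  · have h3 := hM.cf (k - 2)
    rw [show k - 2 + 1 = k - 1 by omega] at h3
    obtain ⟨n, h1, h2⟩ := d0f_common h3
    exact ⟨n, ⟨k - 2, by omega, by omega, h1⟩, h2⟩

end Pool.Agent.Helper64.FL
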