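import Pool.Agent.Helper64.FL.StG

/-! Full list for MP_866009_co: module EXI. -/

set_option autoImplicit false

namespace Pool.Agent.Helper64.FL

open Pool.Agent.Helper64.CT Pool.Agent.Helper64.DT
open Pool.Agent.Helper64.HG (Ovl Model Circ IC HellyCircle ChordModel)

theorem exi_aux {V : Type} (G : SimpleGraph V) (S A : Set V) (b : V) (hb : b ∉ A) (a : V)
    (h : Relation.ReflTransGen (fun u w => G.Adj u w ∧ w ∈ S) a b) :
    a ∈ S → ((∃ u ∈ A, u ∈ S ∧ ∃ w, G.Adj u w ∧ Cn G (S \ A) w b) ∨ (a ∉ A ∧ Cn G (S \ A) a b)) := by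
  induction h using Relation.ReflTransGen.head_induction_on with
  | refl =>
    intro hS
    exact Or.inr ⟨hb, ⟨hS, hb⟩, Relation.ReflTransGen.refl⟩
  | head hac _hcb ih =>
    rename_i a c
    intro hS
    rcases ih hac.2 with h | ⟨hcA, hc⟩
    · exact Or.inl h
    · by_cases haA : a ∈ A
      · exact Or.inl ⟨a, haA, hS, c, hac.1, hc⟩
      · exact Or.inr ⟨haA, ⟨hS, haA⟩, Relation.ReflTransGen.head ⟨hac.1, hac.2, hcA⟩ hc.2⟩

theorem st_EXI (_h1 : ST_CNB) : ST_EXI := by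
  intro V G S A a b h ha hb
  rcases exi_aux G S A b hb a h.2 h.1 with h | ⟨h, _⟩
  · exact h
  · exact absurd ha h

end Pool.Agent.Helper64.FL
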