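import Pool.Agent.Helper64.FL.StC

namespace Pool.Agent.Helper64.FL

open Pool.Agent.Helper64.CT Pool.Agent.Helper64.DT
open Pool.Agent.Helper64.HG (Ovl Model Circ IC HellyCircle ChordModel)

theorem hb0_aux (h1 : ST_RAY) (h2 : ST_CNB) {V : Type} {G : SimpleGraph V} {Q : Set V} (hD : DF G) (hM : MaxC G Q)
    {x y z u u' n : V} (hu : RayQ G Q x u) (hy : y ∈ Q) (hyx : y ≠ x) (hz : z ∈ Q)
    (hzx : z ≠ x) (hzy : z ≠ y) (hnc : ¬ Comp G y u u') (hn : n ∈ Att G y u') (hun : ¬ G.Adj u n) :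
    Comp G u u' z := by
  obtain ⟨c1, c2, c3, c4, c5, c6, c7⟩ := h2 V G
  obtain ⟨r1, -, -, -, -, -⟩ := h1 V G Q hD hM
  obtain ⟨hny, k, hk, hnk⟩ := hn
  have huy := (r1 x u y hu hy hyx).1
  have huz := (r1 x u z hu hz hzx).1
  have hyu : y ∈ Far G u := ⟨huy.1.symm, fun h => huy.2 h.symm⟩
  have hzu : z ∈ Far G u := ⟨huz.1.symm, fun h => huz.2 h.symm⟩
  have hnu : n ∈ Far G u := ⟨fun h => huy.2 (h ▸ hny), hun⟩
  have hsub : KC G y u' ⊆ Far G u := by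
    intro v hv
    have hv' : Cn G (Far G y) u' v := (c5 y u' v).mp hv
    refine ⟨fun h => ?_, fun h => ?_⟩
    · rw [h] at hv'
      exact hnc ((c5 y u u').mpr (c1 _ _ _ hv').2)
    · have h3 : Cn G (Far G y) v u := c4 _ v u (c1 _ _ _ hv').1 huy h.symm
      exact hnc ((c5 y u u').mpr (c1 _ _ _ (c2 _ _ _ _ hv' h3)).2)
  have h3 : Cn G (Far G u) u' k := c3 _ _ _ _ hsub (c6 y u' k hk)
  have hku : k ∈ Far G u := hsub hk
  have h4 : Cn G (Far G u) k n := c4 _ _ _ hku hnu hnk.symm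
  have h5 : Cn G (Far G u) n y := c4 _ _ _ hnu hyu hny.symm
  have h6 : Cn G (Far G u) y z := c4 _ _ _ hyu hzu (hM.1 y hy z hz hzy.symm)
  exact (c5 u u' z).mpr (c2 _ _ _ _ (c2 _ _ _ _ (c2 _ _ _ _ h3 h4) h5) h6)

theorem st_HB0 (h1 : ST_RAY) (h2 : ST_CNB) : ST_HB0 := by
  intro V G Q hD hCI hM x y z u u' hu hu' hy hyx hz hzx hzy hc hnc
  by_contra hcon
  push Not at hcon
  obtain ⟨⟨n', hn', hun'⟩, ⟨n, hn, hun⟩⟩ := hcon
  obtain ⟨c1, c2, c3, c4, c5, c6, c7⟩ := h2 V G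
  have hnc' : ¬ Comp G y u' u := fun h => hnc ((c5 y u u').mpr (c1 _ _ _ ((c5 y u' u).mp h)).2)
  apply hCI
  exact ⟨x, u, u', z, hu.2.1, hu'.2.1, hM.1 x hu.1 z hz hzx.symm, hc,
    hb0_aux h1 h2 hD hM hu hy hyx hz hzx hzy hnc hn hun,
    hb0_aux h1 h2 hD hM hu' hy hyx hz hzx hzy hnc' hn' hun'⟩

end Pool.Agent.Helper64.FL
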