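import Pool.Agent.Helper64.FL.StG

/-! Full list for MP_866009_co: module LKX. -/

set_option autoImplicit false

namespace Pool.Agent.Helper64.FL

open Pool.Agent.Helper64.CT Pool.Agent.Helper64.DT
open Pool.Agent.Helper64.HG (Ovl Model Circ IC HellyCircle ChordModel)

theorem st_LKX (h1 : ST_CNB) (h2 : ST_SPN) : ST_LKX := by
  intro V G x y a b ha hb
  obtain ⟨_, u, hu, hau⟩ := ha
  obtain ⟨_, v, hv, hbv⟩ := hb
  obtain ⟨sym, tr, _, _, _, kc, _⟩ := h1 V G
  have c1 := kc x y u hu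
  have c2 := kc x y v hv
  have c3 : Cn G (KC G x y) u v := tr _ _ _ _ (sym _ _ _ c1).2 c2
  obtain ⟨l, M, r, lA, lS, rB, rS, hp, hM, hlr⟩ :=
    h2 V G (KC G x y) {w | G.Adj w a} {w | G.Adj w b} ⟨u, hau.symm, v, hbv.symm, c3⟩
  exact ⟨l, M, r,
    { lK := lS
      rK := rS
      LK := fun w hw => (hM w hw).1
      pth := hp
      la := lA
      rb := rB
      Lab := fun w hw => ⟨(hM w hw).2.1, (hM w hw).2.2⟩
      lr := fun hne => ⟨(hlr hne).1, (hlr hne).2⟩ }⟩

end Pool.Agent.Helper64.FL
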