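import Pool.Agent.Helper64.FL.StH

/-! Full list for MP_866009_co: module NJC. -/

set_option autoImplicit false

namespace Pool.Agent.Helper64.FL

open Pool.Agent.Helper64.CT Pool.Agent.Helper64.DT
open Pool.Agent.Helper64.HG (Ovl Model Circ IC HellyCircle ChordModel)

theorem st_NJC : ST_NJC := by
  intro V G S b hN c hc u w h
  obtain ⟨hu, h⟩ := h
  have key : w ∈ S ∩ Far G c ∧ b c u = b c w := by
    induction h with
    | refl => exact ⟨hu, rfl⟩
    | tail _ hs ih =>
      exact ⟨hs.2, ih.2.trans (hN.2.1 c hc _ ih.1.1 _ hs.2.1 ih.1.2 hs.2.2 hs.1)⟩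
  exact key.2

end Pool.Agent.Helper64.FL
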