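import Pool.Agent.Helper64.FL.Pre

set_option autoImplicit false

namespace Pool.Agent.Helper64.FL

theorem nub_fix (r : List ℕ) (k : ℕ) (h : nth r k = k) : cnt r (k + 1) = cnt r k + 1 := by
  have : Nat.beq (nth r k) k = true := by rw [Nat.beq_eq]; exact h
  show (bif Nat.beq (nth r k) k then Nat.succ (cnt r k) else cnt r k) = _
  rw [this]
  rfl

theorem nub_nfix (r : List ℕ) (k : ℕ) (h : nth r k ≠ k) : cnt r (k + 1) = cnt r k := by
  have : Nat.beq (nth r k) k = false := by
    rw [Bool.eq_false_iff]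
    intro h1
    exact h (Nat.beq_eq ▸ h1)
  show (bif Nat.beq (nth r k) k then Nat.succ (cnt r k) else cnt r k) = _
  rw [this]
  rfl

theorem nub_step (r : List ℕ) (k : ℕ) : cnt r k ≤ cnt r (k + 1) := by
  by_cases h : nth r k = k
  · rw [nub_fix r k h]; omega
  · rw [nub_nfix r k h]

theorem nub_mono (r : List ℕ) {a b : ℕ} (h : a ≤ b) : cnt r a ≤ cnt r b := by
  induction h with
  | refl => exact le_rfl
  | step _ ih => exact ih.trans (nub_step r _)

theorem nub_lt (r : List ℕ) {a b : ℕ} (h : a < b) (ha : nth r a = a) : cnt r a < cnt r b := by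
  have h1 := nub_mono r (Nat.succ_le_of_lt h)
  have h2 := nub_fix r a ha
  have h3 : a.succ = a + 1 := rfl
  rw [h3] at h1
  omega

theorem nub_le (r : List ℕ) (k : ℕ) : cnt r k ≤ k := by
  induction k with
  | zero => exact le_rfl
  | succ k ih =>
    by_cases h : nth r k = k
    · rw [nub_fix r k h]; omega
    · rw [nub_nfix r k h]; omega

theorem nub_sur (r : List ℕ) (n m : ℕ) (hm : m < cnt r n) :
    ∃ i, i < n ∧ nth r i = i ∧ cnt r i = m := by
  induction n with
  | zero => exact absurd hm (Nat.not_lt_zero _)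
  | succ n ih =>
    by_cases h : nth r n = n
    · rw [nub_fix r n h] at hm
      by_cases h1 : m < cnt r n
      · obtain ⟨i, hi, h2⟩ := ih h1
        exact ⟨i, by omega, h2⟩
      · exact ⟨n, by omega, h, by omega⟩
    · rw [nub_nfix r n h] at hm
      obtain ⟨i, hi, h2⟩ := ih hm
      exact ⟨i, by omega, h2⟩

theorem st_NUB : ST_NUB := by
  intro n r h
  refine ⟨fun i hi => ?_, fun i j hi hj => ?_, fun m hm => ?_, nub_le r n⟩
  · obtain ⟨h1, h2⟩ := h i hi
    exact nub_lt r (lt_of_le_of_lt h1 hi) h2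
  · constructor
    · intro h3
      obtain ⟨h1, h2⟩ := h i hi
      obtain ⟨h4, h5⟩ := h j hj
      unfold nu at h3
      rcases Nat.lt_trichotomy (nth r i) (nth r j) with h6 | h6 | h6
      · have := nub_lt r h6 h2; omega
      · exact h6
      · have := nub_lt r h6 h5; omega
    · intro h3
      unfold nu
      rw [h3]
  · obtain ⟨i, hi, h1, h2⟩ := nub_sur r n m hm
    refine ⟨i, hi, ?_⟩
    unfold nu
    rw [h1]
    exact h2

end Pool.Agent.Helper64.FL
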