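import Pool.Agent.Helper64.FL.StG

/-! Full list for MP_866009_co: module SEP. -/

set_option autoImplicit false

namespace Pool.Agent.Helper64.FL

open Pool.Agent.Helper64.CT Pool.Agent.Helper64.DT
open Pool.Agent.Helper64.HG (Ovl Model Circ IC HellyCircle ChordModel)

theorem st_SEP (_h1 : ST_CNB) : ST_SEP := by
  intro V G x y z hn u hu v hv
  obtain ⟨hy, hu1, r1⟩ := hu
  obtain ⟨hz, hv1, r2⟩ := hv
  refine ⟨?_, ?_⟩
  · intro h
    subst h
    exact hn ⟨hy, hz, r1.trans r2.symm⟩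
  · intro h
    apply hn
    refine ⟨hy, hz, r1.trans (SimpleGraph.Reachable.trans ?_ r2.symm)⟩
    exact SimpleGraph.Adj.reachable (show (G.induce (Far G x)).Adj ⟨u, hu1⟩ ⟨v, hv1⟩ from h)

end Pool.Agent.Helper64.FL
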