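import Pool.Agent.Helper64.FL.StC

namespace Pool.Agent.Helper64.FL

open Pool.Agent.Helper64.CT Pool.Agent.Helper64.DT
open Pool.Agent.Helper64.HG (Ovl Model Circ IC HellyCircle ChordModel)

theorem st_SPL (h1 : ST_NRX) : ST_SPL := by
  intro V G x y p p' hp hp' ⟨u, hu, hc⟩
  rcases hc with ⟨a, b⟩ | ⟨a, b⟩
  · obtain ⟨L, r, h⟩ := h1 V G x y u p' hu hp'
    exact ⟨u, r, L, Or.inl ⟨a, b, h⟩⟩
  · obtain ⟨L, r, h⟩ := h1 V G x y u p hu hp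
    by_cases h3 : G.Adj r p'
    · exact ⟨u, r, L, Or.inr ⟨a, b, h, h3⟩⟩
    · obtain ⟨L', r', h'⟩ := h1 V G x y r p' h.rK hp'
      exact ⟨r, r', L', Or.inl ⟨h.rb, h3, h'⟩⟩

end Pool.Agent.Helper64.FL
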