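import Pool.Agent.Helper64.FL.StC
import Pool.Agent.Helper64.DT.Stmts

namespace Pool.Agent.Helper64.FL

open Pool.Agent.Helper64.CT Pool.Agent.Helper64.DT
open Pool.Agent.Helper64.HG (Ovl Model Circ IC HellyCircle ChordModel)

theorem tdc_aux (h1 : ST_RAY) (h2 : ST_CNB) (hAT2 : ST_AT2) {V : Type} {G : SimpleGraph V} {Q : Set V} (hD : DF G)
    (hP : Prime G) (hM : MaxC G Q) {x y z u u' : V} (hu : RayQ G Q x u) (hu' : RayQ G Q x u') (hy : y ∈ Q)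
    (hyx : y ≠ x) (hz : z ∈ Q) (hzx : z ≠ x) (hzy : z ≠ y) (hnc : ¬ Comp G y u u')
    (hmx : ∀ w, Comp G y u' w → ¬ Mixed G w (Att G y u)) : Comp G z u u' := by
  obtain ⟨c1, c2, c3, c4, c5, c6, c7⟩ := h2 V G
  obtain ⟨r1, r2, -, -, -, r6⟩ := h1 V G Q hD hM
  have huy := (r1 x u y hu hy hyx).1
  have hxA := (r1 x u y hu hy hyx).2
  have hu'y := (r1 x u' y hu' hy hyx).1
  have hu'z := (r1 x u' z hu' hz hzx).1
  have hself : Comp G y u' u' := (c5 y u' u').mpr ⟨hu'y, Relation.ReflTransGen.refl⟩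
  have hall : ∀ n ∈ Att G y u, G.Adj u' n := by
    intro n hn
    by_contra hc
    exact hmx u' hself ⟨⟨x, hxA, hu'.2.1.symm⟩, ⟨n, hn, hc⟩⟩
  obtain ⟨n, hn, hnx⟩ := hAT2 V G hP y u u' x huy hu'y hnc hxA
  have hnQ : n ∉ Q := by
    intro h
    exact hnx (r2 x n u' hu' ⟨h, (hall n hn).symm, hu'.2.2⟩).symm
  have hzA : z ∉ Att G y u := by
    intro h
    exact hzx (r2 x z u' hu' ⟨hz, (hall z h).symm, hu'.2.2⟩).symm
  have hyz : G.Adj y z := hM.1 y hy z hz hzy.symm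
  have hsub : KC G y u ⊆ Far G z := by
    intro v hv
    have hv' : Cn G (Far G y) u v := (c5 y u v).mp hv
    refine ⟨fun h => ?_, fun h => ?_⟩
    · have := (c1 _ _ _ hv').1
      rw [h] at this
      exact this.2 hyz
    · exact hzA ⟨hyz, v, hv, h⟩
  obtain ⟨hny, k, hk, hnk⟩ := hn
  have hnz : n ∈ Far G z := r6 y hy n hny hnQ z hz hzy
  have h3 : Cn G (Far G z) u k := c3 _ _ _ _ hsub (c6 y u k hk)
  have h4 : Cn G (Far G z) k n := c4 _ _ _ (hsub hk) hnz hnk.symm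
  have h5 : Cn G (Far G z) n u' := c4 _ _ _ hnz hu'z (hall n ⟨hny, k, hk, hnk⟩).symm
  exact (c5 z u u').mpr (c2 _ _ _ _ (c2 _ _ _ _ h3 h4) h5)

theorem st_TDC (h1 : ST_RAY) (h2 : ST_CNB) (hAT2 : ST_AT2) : ST_TDC := by
  intro V G Q hD hP hM x y z u u' hu hu' hy hyx hz hzx hzy
  by_cases hc : Comp G y u u'
  · exact Or.inl hc
  by_cases hf : Conf G y u u'
  · exact Or.inr (Or.inl hf)
  right; right
  obtain ⟨c1, c2, c3, c4, c5, c6, c7⟩ := h2 V G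
  have hnc' : ¬ Comp G y u' u := fun h => hc ((c5 y u u').mpr (c1 _ _ _ ((c5 y u' u).mp h)).2)
  by_cases h3 : ∃ w, Comp G y u' w ∧ Mixed G w (Att G y u)
  · have h4 : ∀ w, Comp G y u w → ¬ Mixed G w (Att G y u') := fun w hw hm => hf ⟨hc, ⟨w, hw, hm⟩, h3⟩
    have h5 := tdc_aux h1 h2 hAT2 hD hP hM hu' hu hy hyx hz hzx hzy hnc' h4
    exact (c5 z u u').mpr (c1 _ _ _ ((c5 z u' u).mp h5)).2
  · exact tdc_aux h1 h2 hAT2 hD hP hM hu hu' hy hyx hz hzx hzy hc fun w hw hm => h3 ⟨w, hw, hm⟩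

end Pool.Agent.Helper64.FL
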